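import Pool.Agent.W810.SYN.Stm

/-!
Project SYN, part UN.
-/

set_option autoImplicit false

namespace Pool.Agent.W284.SYN.UN

open MeasureTheory AddCircle Filter Topology Pool.Agent.Results.MP_535799_an.NonSidon
open Pool.Agent.W810.SYN

noncomputable section

theorem cont_sd : Continuous sd := by
  unfold sd
  exact (continuous_const.sub (fourier 1).continuous).norm

def EN (N : ℕ) : Set Circ := {x | 1 / ((N : ℝ) + 1) ≤ sd x}

theorem isClosed_EN (N : ℕ) : IsClosed (EN N) := isClosed_le continuous_const cont_sd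

theorem isCompact_EN (N : ℕ) : IsCompact (EN N) := (isClosed_EN N).isCompact

theorem sd_pos {N : ℕ} {x : Circ} (hx : x ∈ EN N) : 0 < sd x :=
  lt_of_lt_of_le (by positivity : 0 < 1 / ((N : ℝ) + 1)) hx

theorem sumsq (l : ℕ) : ∑ m ∈ Finset.range l, (2 * (m : ℝ) + 3) = ((l : ℝ) + 1) ^ 2 - 1 := by
  induction l with
  | zero => simp
  | succ l ih =>
    rw [Finset.sum_range_succ, ih]
    push_cast
    ring

theorem layer {N : ℕ} {s : ℝ} (hs : 1 / ((N : ℝ) + 1) ≤ s) :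
    1 / s ^ 2 ≤ 1 + ∑ m ∈ Finset.range (N + 1),
      (2 * (m : ℝ) + 3) * (if s < 1 / ((m : ℝ) + 1) then 1 else 0) := by
  have hN : (0 : ℝ) < (N : ℝ) + 1 := by positivity
  have hs0 : 0 < s := lt_of_lt_of_le (by positivity) hs
  have h1 : 1 / s ≤ (N : ℝ) + 1 := by
    rw [div_le_iff₀ hs0]
    rw [div_le_iff₀ hN] at hs
    linarith
  set L := ⌈1 / s⌉₊ with hL
  have hL1 : 1 / s ≤ (L : ℝ) := Nat.le_ceil _
  have hL2 : L ≤ N + 1 := by
    rw [hL]
    apply Nat.ceil_le.2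
    push_cast
    exact h1
  have hL3 : 0 < L := Nat.ceil_pos.2 (by positivity)
  have hL4 : (L : ℝ) < 1 / s + 1 := Nat.ceil_lt_add_one (by positivity)
  obtain ⟨l, hl⟩ : ∃ l, L = l + 1 := ⟨L - 1, by omega⟩
  have e1 : 1 / s ^ 2 ≤ (L : ℝ) ^ 2 := by
    rw [← one_div_pow]
    exact pow_le_pow_left₀ (by positivity) hL1 2
  have e2 : ∑ m ∈ Finset.range l, (2 * (m : ℝ) + 3) ≤ ∑ m ∈ Finset.range (N + 1),
      (2 * (m : ℝ) + 3) * (if s < 1 / ((m : ℝ) + 1) then 1 else 0) := by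
    have e3 : ∑ m ∈ Finset.range l, (2 * (m : ℝ) + 3) = ∑ m ∈ Finset.range l,
        (2 * (m : ℝ) + 3) * (if s < 1 / ((m : ℝ) + 1) then 1 else 0) := by
      refine Finset.sum_congr rfl fun m hm => ?_
      have hm' : (m : ℝ) + 1 ≤ l := by exact_mod_cast Finset.mem_range.1 hm
      have : s < 1 / ((m : ℝ) + 1) := by
        rw [lt_div_iff₀ (by positivity)]
        have h5 : (m : ℝ) + 1 < 1 / s := by
          rw [hl] at hL4
          push_cast at hL4
          linarith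
        rw [lt_div_iff₀ hs0] at h5
        linarith
      rw [if_pos this, mul_one]
    rw [e3]
    refine Finset.sum_le_sum_of_subset_of_nonneg ?_ ?_
    · intro m hm
      rw [Finset.mem_range] at hm ⊢
      omega
    · intro m _ _
      split_ifs <;> positivity
  rw [sumsq] at e2
  rw [hl] at e1
  push_cast at e1
  linarith

theorem intS (h : S_MEAS) (N : ℕ) :
    ∫ x in EN N, 1 / (sd x) ^ 2 ∂mu ≤ 4 * ((N : ℝ) + 1) := by
  set F : Circ → ℝ := fun x => 1 + ∑ m ∈ Finset.range (N + 1),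
    (2 * (m : ℝ) + 3) * ({x : Circ | sd x < 1 / ((m : ℝ) + 1)}.indicator 1 x) with hF
  have hmeas : ∀ m : ℕ, MeasurableSet {x : Circ | sd x < 1 / ((m : ℝ) + 1)} := fun m =>
    measurableSet_lt cont_sd.measurable measurable_const
  have hi : ∀ m : ℕ, Integrable (fun x : Circ => (2 * (m : ℝ) + 3) *
      ({x : Circ | sd x < 1 / ((m : ℝ) + 1)}.indicator (1 : Circ → ℝ) x)) mu := fun m =>
    ((integrable_const (1 : ℝ)).indicator (hmeas m)).const_mul _
  have hFi : Integrable F mu := (integrable_const _).add (integrable_finset_sum _ fun m _ => hi m)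
  have hF0 : ∀ x, 0 ≤ F x := by
    intro x
    refine add_nonneg zero_le_one (Finset.sum_nonneg fun m _ => mul_nonneg (by positivity) ?_)
    exact Set.indicator_nonneg (fun _ _ => zero_le_one) _
  have hc : ContinuousOn (fun x : Circ => 1 / (sd x) ^ 2) (EN N) := by
    refine ContinuousOn.div continuousOn_const (cont_sd.pow 2).continuousOn fun x hx => ?_
    exact pow_ne_zero 2 (sd_pos hx).ne'
  calc ∫ x in EN N, 1 / (sd x) ^ 2 ∂mu ≤ ∫ x in EN N, F x ∂mu := by
        refine setIntegral_mono_on (hc.integrableOn_compact (isCompact_EN N)) hFi.integrableOn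
          (isClosed_EN N).measurableSet fun x hx => ?_
        have := layer (N := N) hx
        refine this.trans (le_of_eq ?_)
        show _ = 1 + ∑ m ∈ Finset.range (N + 1), (2 * (m : ℝ) + 3) *
          ({x : Circ | sd x < 1 / ((m : ℝ) + 1)}.indicator 1 x)
        congr 1
    _ ≤ ∫ x, F x ∂mu := setIntegral_le_integral hFi (ae_of_all _ hF0)
    _ = 1 + ∑ m ∈ Finset.range (N + 1),
        (2 * (m : ℝ) + 3) * mu.real {x : Circ | sd x < 1 / ((m : ℝ) + 1)} := by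
        rw [hF]
        rw [integral_add (integrable_const _) (integrable_finset_sum _ fun m _ => hi m),
          integral_finset_sum _ fun m _ => hi m]
        congr 1
        · simp
        · refine Finset.sum_congr rfl fun m _ => ?_
          rw [integral_const_mul, integral_indicator_one (hmeas m)]
    _ ≤ 1 + ∑ m ∈ Finset.range (N + 1), (3 : ℝ) := by
        refine add_le_add le_rfl (Finset.sum_le_sum fun m _ => ?_)
        have h1 := h (1 / ((m : ℝ) + 1)) (by positivity)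
        calc (2 * (m : ℝ) + 3) * mu.real {x : Circ | sd x < 1 / ((m : ℝ) + 1)}
            ≤ (2 * (m : ℝ) + 3) * (1 / ((m : ℝ) + 1)) :=
              mul_le_mul_of_nonneg_left h1 (by positivity)
          _ ≤ 3 := by
              rw [mul_one_div, div_le_iff₀ (by positivity)]
              have : (0 : ℝ) ≤ m := Nat.cast_nonneg m
              linarith
    _ ≤ 4 * ((N : ℝ) + 1) := by
        rw [Finset.sum_const, Finset.card_range, nsmul_eq_mul]
        push_cast
        have : (0 : ℝ) ≤ N := Nat.cast_nonneg N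
        linarith

theorem norm_Gc (N : ℕ) (n : ℤ) : ‖Gc N n‖ ≤ 1 / ((N : ℝ) + 1) := by
  unfold Gc lam
  rw [← sub_div, norm_div, ← Int.cast_sub]
  have e : ‖((N : ℂ) + 1)‖ = (N : ℝ) + 1 := by
    have : ((N : ℂ) + 1) = (((N : ℝ) + 1 : ℝ) : ℂ) := by push_cast; ring
    rw [this, Complex.norm_real, Real.norm_of_nonneg (by positivity)]
  rw [e]
  refine div_le_div_of_nonneg_right ?_ (by positivity)
  rw [Complex.norm_intCast]
  have h1 : |max 0 ((N : ℤ) + 1 - |n|) - max 0 ((N : ℤ) + 1 - |n + 1|)| ≤ 1 := by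
    rw [abs_le]
    rcases abs_cases n with ⟨h1, h2⟩ | ⟨h1, h2⟩ <;>
    rcases abs_cases (n + 1) with ⟨h3, h4⟩ | ⟨h3, h4⟩ <;>
    rw [h1, h3] <;> constructor <;> omega
  exact_mod_cast h1

theorem norm_coeff (f : L1) (n : ℤ) : ‖coeff f n‖ ≤ ‖f‖ := by
  unfold coeff fourierCoeff
  refine (norm_integral_le_integral_norm _).trans (le_of_eq ?_)
  rw [L1.norm_eq_integral_norm]
  refine integral_congr_ae (ae_of_all _ fun x => ?_)
  have h1 : ‖(fourier (-n) x : ℂ)‖ = 1 := by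
    rw [fourier_apply]
    exact Circle.norm_coe _
  show ‖fourier (-n) x • (f : Circ → ℂ) x‖ = ‖(f : Circ → ℂ) x‖
  rw [norm_smul, h1, one_mul]

theorem dens (f : L1) {ε : ℝ} (hε : 0 < ε) :
    ∃ (S : Finset ℤ) (b : ℤ → ℂ), ‖f - toL (poly S b)‖ < ε := by
  have h1 : f ∈ (Submodule.span ℂ (Set.range (@fourierLp (2 * Real.pi) _ 1 _))).topologicalClosure := by
    rw [span_fourierLp_closure_eq_top (by norm_num)]
    trivial
  have h2 : f ∈ closure (Submodule.span ℂ (Set.range (@fourierLp (2 * Real.pi) _ 1 _)) : Set L1) := h1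
  rw [Metric.mem_closure_iff] at h2
  obtain ⟨g, hg, hfg⟩ := h2 ε hε
  obtain ⟨c, hc⟩ := Finsupp.mem_span_range_iff_exists_finsupp.1 hg
  refine ⟨c.support, c, ?_⟩
  rw [toL_poly]
  rw [dist_eq_norm, ← hc] at hfg
  exact hfg

theorem sumcoef (f : L1) (S : Finset ℤ) (b : ℤ → ℂ) {ε : ℝ} (he : ‖f - toL (poly S b)‖ < ε)
    (N : ℕ) : ∑ n ∈ Finset.Icc (-(N : ℤ) - 1) N, ‖coeff f n‖ ^ 2 ≤
      2 * ∑ n ∈ S, ‖b n‖ ^ 2 + 4 * ((N : ℝ) + 1) * ε ^ 2 := by
  have h1 : ∀ n, ‖coeff f n‖ ^ 2 ≤ 2 * ‖coeff (toL (poly S b)) n‖ ^ 2 + 2 * ε ^ 2 := by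
    intro n
    have e1 : coeff f n = coeff (toL (poly S b)) n + coeff (f - toL (poly S b)) n := by
      rw [coeff_sub]
      ring
    have e2 : ‖coeff f n‖ ≤ ‖coeff (toL (poly S b)) n‖ + ε := by
      rw [e1]
      exact (norm_add_le _ _).trans (add_le_add le_rfl ((norm_coeff _ n).trans he.le))
    have e3 := norm_nonneg (coeff f n)
    have e4 := norm_nonneg (coeff (toL (poly S b)) n)
    have e5 : 0 ≤ ε := (norm_nonneg _).trans he.le
    nlinarith [sq_nonneg (‖coeff (toL (poly S b)) n‖ - ε)]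
  refine (Finset.sum_le_sum fun n _ => h1 n).trans ?_
  rw [Finset.sum_add_distrib, Finset.sum_const, ← Finset.mul_sum, Int.card_Icc, nsmul_eq_mul]
  have h2 : ((((N : ℤ) + 1 - (-(N : ℤ) - 1)).toNat : ℕ) : ℝ) = 2 * ((N : ℝ) + 1) := by
    have : ((N : ℤ) + 1 - (-(N : ℤ) - 1)).toNat = 2 * N + 2 := by omega
    rw [this]
    push_cast
    ring
  rw [h2]
  have h3 : ∑ n ∈ Finset.Icc (-(N : ℤ) - 1) N, ‖coeff (toL (poly S b)) n‖ ^ 2 ≤
      ∑ n ∈ S, ‖b n‖ ^ 2 := by
    classical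
    have e1 : ∀ n, ‖coeff (toL (poly S b)) n‖ ^ 2 = if n ∈ S then ‖b n‖ ^ 2 else 0 := by
      intro n
      rw [coeff_toL_poly]
      split_ifs <;> simp
    simp_rw [e1]
    rw [← Finset.sum_filter]
    refine Finset.sum_le_sum_of_subset_of_nonneg ?_ fun _ _ _ => by positivity
    intro n hn
    exact (Finset.mem_filter.1 hn).2
  nlinarith

theorem bound (h : S_MEAS) (f : L1) (N : ℕ) {η : ℝ} (hη : 0 < η) :
    ∫ x in EN N, ‖uN f N x‖ / sd x ∂mu ≤
      1 / (2 * η * ((N : ℝ) + 1)) * ∑ n ∈ Finset.Icc (-(N : ℤ) - 1) N, ‖coeff f n‖ ^ 2 + 2 * η := by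
  have hN : (0 : ℝ) < (N : ℝ) + 1 := by positivity
  set t : ℝ := ((N : ℝ) + 1) / η with ht
  have ht0 : 0 < t := by positivity
  have hu : Continuous fun x => ‖uN f N x‖ := (uN f N).continuous.norm
  have c1 : ContinuousOn (fun x : Circ => ‖uN f N x‖ / sd x) (EN N) :=
    hu.continuousOn.div cont_sd.continuousOn fun x hx => (sd_pos hx).ne'
  have c2 : ContinuousOn (fun x : Circ => 1 / (sd x) ^ 2) (EN N) := by
    refine ContinuousOn.div continuousOn_const (cont_sd.pow 2).continuousOn fun x hx => ?_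
    exact pow_ne_zero 2 (sd_pos hx).ne'
  have c3 : ContinuousOn (fun x : Circ => ‖uN f N x‖ ^ 2) (EN N) := (hu.pow 2).continuousOn
  have i1 := c1.integrableOn_compact (μ := mu) (isCompact_EN N)
  have i2 := c2.integrableOn_compact (μ := mu) (isCompact_EN N)
  have i3 := c3.integrableOn_compact (μ := mu) (isCompact_EN N)
  have p1 : ∫ x in EN N, ‖uN f N x‖ / sd x ∂mu ≤
      ∫ x in EN N, (t / 2 * ‖uN f N x‖ ^ 2 + 1 / (2 * t) * (1 / (sd x) ^ 2)) ∂mu := by
    refine setIntegral_mono_on i1 ((i3.const_mul _).add (i2.const_mul _))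
      (isClosed_EN N).measurableSet fun x hx => ?_
    have hs := sd_pos hx
    have e1 : t / 2 * ‖uN f N x‖ ^ 2 + 1 / (2 * t) * (1 / (sd x) ^ 2) - ‖uN f N x‖ / sd x =
        1 / (2 * t) * (t * ‖uN f N x‖ - 1 / sd x) ^ 2 := by
      field_simp
      ring
    have e2 : 0 ≤ 1 / (2 * t) * (t * ‖uN f N x‖ - 1 / sd x) ^ 2 := by positivity
    linarith
  rw [integral_add (i3.const_mul _) (i2.const_mul _), integral_const_mul, integral_const_mul] at p1
  have p2 : ∫ x in EN N, ‖uN f N x‖ ^ 2 ∂mu ≤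
      (1 / ((N : ℝ) + 1)) ^ 2 * ∑ n ∈ Finset.Icc (-(N : ℤ) - 1) N, ‖coeff f n‖ ^ 2 := by
    have hu2 : Continuous fun x => ‖uN f N x‖ ^ 2 := hu.pow 2
    refine (setIntegral_le_integral (integrable_of_cont (fun x => ‖uN f N x‖ ^ 2) hu2)
      (ae_of_all _ fun x => sq_nonneg _)).trans ?_
    have e7 : ∫ x, ‖uN f N x‖ ^ 2 ∂mu = ∑ n ∈ Finset.Icc (-(N : ℤ) - 1) N,
        ‖Gc N n * coeff f n‖ ^ 2 := by
      unfold uN
      exact parseval_poly _ _
    rw [e7, Finset.mul_sum]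
    refine Finset.sum_le_sum fun n _ => ?_
    rw [norm_mul, mul_pow]
    exact mul_le_mul_of_nonneg_right (pow_le_pow_left₀ (norm_nonneg _) (norm_Gc N n) 2)
      (by positivity)
  have p3 := intS h N
  have p4 : t / 2 * ∫ x in EN N, ‖uN f N x‖ ^ 2 ∂mu ≤
      1 / (2 * η * ((N : ℝ) + 1)) * ∑ n ∈ Finset.Icc (-(N : ℤ) - 1) N, ‖coeff f n‖ ^ 2 := by
    refine (mul_le_mul_of_nonneg_left p2 (by positivity)).trans (le_of_eq ?_)
    rw [ht]
    field_simp
  have p5 : 1 / (2 * t) * ∫ x in EN N, 1 / (sd x) ^ 2 ∂mu ≤ 2 * η := by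
    refine (mul_le_mul_of_nonneg_left p3 (by positivity)).trans (le_of_eq ?_)
    rw [ht]
    field_simp
    ring
  linarith

theorem main (h : S_MEAS) : S_UN := by
  intro f
  rw [Metric.tendsto_atTop]
  intro δ hδ
  obtain ⟨S, b, hSb⟩ := dens f (show 0 < δ / 8 by positivity)
  set P := ∑ n ∈ S, ‖b n‖ ^ 2 with hP
  have hP0 : 0 ≤ P := Finset.sum_nonneg fun _ _ => by positivity
  obtain ⟨N0, hN0⟩ := exists_nat_gt (P / (δ / 8 * (δ / 4)))
  refine ⟨N0, fun N hN => ?_⟩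
  have hNr : (N0 : ℝ) ≤ N := by exact_mod_cast hN
  have hNp : (0 : ℝ) < (N : ℝ) + 1 := by positivity
  have b1 := bound h f N (show 0 < δ / 8 by positivity)
  have b2 := sumcoef f S b hSb N
  rw [← hP] at b2
  have b3 : 1 / (2 * (δ / 8) * ((N : ℝ) + 1)) *
      ∑ n ∈ Finset.Icc (-(N : ℤ) - 1) N, ‖coeff f n‖ ^ 2 ≤
      P / (δ / 8 * ((N : ℝ) + 1)) + 2 * (δ / 8) := by
    refine (mul_le_mul_of_nonneg_left b2 (by positivity)).trans (le_of_eq ?_)
    field_simp
    ring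
  have b4 : P / (δ / 8 * ((N : ℝ) + 1)) < δ / 4 := by
    rw [div_lt_iff₀ (by positivity)] at hN0 ⊢
    nlinarith [mul_pos hδ hδ]
  have b5 : 0 ≤ ∫ x in {x | 1 / ((N : ℝ) + 1) ≤ sd x}, ‖uN f N x‖ / sd x ∂mu := by
    refine setIntegral_nonneg (isClosed_EN N).measurableSet fun x hx => ?_
    exact div_nonneg (norm_nonneg _) (sd_pos hx).le
  rw [Real.dist_eq, sub_zero, abs_of_nonneg b5]
  have b6 : ∫ x in {x | 1 / ((N : ℝ) + 1) ≤ sd x}, ‖uN f N x‖ / sd x ∂mu =
    ∫ x in EN N, ‖uN f N x‖ / sd x ∂mu := rfl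
  rw [b6]
  linarith

end

end Pool.Agent.W284.SYN.UN
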